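import Mathlib

namespace Pool.Agent.H.MP_5bb7da_pr

open Finset

abbrev C := Fin 4

def D : (List C → ℝ) → List C → ℝ
  | _, [] => 0
  | f, a :: w => f w + D (fun z => f (a :: z)) w

lemma D_append : ∀ (x y : List C) (f : List C → ℝ),
    D f (x ++ y) = D (fun z => f (z ++ y)) x + D (fun z => f (x ++ z)) y
  | [], y, f => by simp [D]
  | a :: x, y, f => by simp [D, D_append x, add_assoc]

lemma D_congr : ∀ (w : List C) {f g : List C → ℝ}, (∀ z, z.length + 1 = w.length → f z = g z) →
    D f w = D g w
  | [], _, _, _ => rfl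
  | a :: w, f, g, h => by
    rw [D, D, h w rfl, D_congr w fun z hz => h (a :: z) (by simp [hz])]

lemma D_sum : ∀ (w : List C) (f : C → List C → ℝ), ∑ a, D (f a) w = D (fun z => ∑ a, f a z) w
  | [], _ => by simp [D]
  | a :: w, f => by simp only [D, sum_add_distrib, D_sum w]

lemma D_mul : ∀ (w : List C) (f : List C → ℝ) (c : ℝ), D (fun z => f z * c) w = D f w * c
  | [], _, _ => by simp [D]
  | a :: w, f, c => by simp only [D, D_mul w, add_mul]

lemma D_nn : ∀ (w : List C) {f : List C → ℝ}, (∀ z, 0 ≤ f z) → 0 ≤ D f w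
  | [], _, _ => le_rfl
  | _ :: w, _, h => add_nonneg (h _) (D_nn w fun _ => h _)

noncomputable def p : ℕ → List C → ℝ
  | 0, _ => 1
  | n + 1, w => if w.IsChain (· ≠ ·) then D (p n) w / (2 * (n + 2)) else 0

noncomputable def P (w : List C) : ℝ := p w.length w

lemma p_nn : ∀ n w, 0 ≤ p n w
  | 0, _ => zero_le_one
  | n + 1, w => by
    unfold p
    split_ifs
    · exact div_nonneg (D_nn w (p_nn n)) (by positivity)
    · exact le_rfl

lemma P_nil : P [] = 1 := rfl

lemma P_zero {w : List C} (h : ¬ w.IsChain (· ≠ ·)) : P w = 0 := by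
  rcases w with _ | ⟨a, w⟩
  · exact absurd .nil h
  · exact if_neg h

lemma P_eq {w : List C} (h0 : w ≠ []) (h : w.IsChain (· ≠ ·)) : 2 * (w.length + 1) * P w = D P w := by
  obtain ⟨a, w, rfl⟩ := List.exists_cons_of_ne_nil h0
  rw [D_congr (a :: w) (g := p w.length) fun z hz => by rw [P, (by simpa using hz : z.length = w.length)]]
  simp only [P, List.length_cons, p, h, if_true]
  push_cast
  field_simp
  ring

lemma D_zero (w : List C) {f : List C → ℝ} (h : ∀ z, f z = 0) : D f w = 0 := by
  simpa [h] using D_mul w f 0 |>.symm.trans (D_congr w fun z _ => by simp [h]) |>.symm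

lemma sum_ne (f : C → ℝ) (s : C) : ∑ a, (if a = s then 0 else f a) = ∑ a, f a - f s := by
  rw [eq_sub_iff_add_eq, ← Fintype.sum_ite_eq' s f, ← sum_add_distrib]
  exact sum_congr rfl fun a _ => by split_ifs <;> simp

lemma ch (x : List C) (s a : C) (y : List C) : (x ++ [s] ++ a :: y).IsChain (· ≠ ·) ↔
    (x ++ [s]).IsChain (· ≠ ·) ∧ s ≠ a ∧ (a :: y).IsChain (· ≠ ·) := by
  rw [List.append_assoc, List.singleton_append, List.isChain_split, List.isChain_cons_cons]

lemma rep (x : List C) (s : C) (y : List C) : ¬ (x ++ s :: s :: y).IsChain (· ≠ ·) := fun h =>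
  (List.isChain_cons_cons.mp h.right_of_append).1 rfl

lemma left (x : List C) (s : C) (y : List C) (hx : (x ++ [s]).IsChain (· ≠ ·))
    (ih : ∀ z : List C, z.length = x.length → ∑ a, P (z ++ a :: y) = P z * P y) :
    ∑ a, (if (x ++ [s] ++ a :: y).IsChain (· ≠ ·) then D (fun z => P (z ++ a :: y)) (x ++ [s]) else 0) =
      2 * (x.length + 2) * P (x ++ [s]) * P y - P (x ++ [s] ++ y) := by
  have h1 : ∀ a, (if (x ++ [s] ++ a :: y).IsChain (· ≠ ·) then
      D (fun z => P (z ++ a :: y)) (x ++ [s]) else 0) = D (fun z => P (z ++ [s] ++ a :: y)) x +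
        if a = s then 0 else P (x ++ a :: y) := fun a => by
    by_cases h2 : a = s
    · rw [if_neg fun h => ((ch ..).mp h).2.1 h2.symm, if_pos h2, D_zero, add_zero]
      exact fun z => P_zero fun h => ((ch ..).mp h).2.1 h2.symm
    by_cases h3 : (a :: y).IsChain (· ≠ ·)
    · rw [if_pos ((ch ..).mpr ⟨hx, Ne.symm h2, h3⟩), if_neg h2, D_append]
      simp [D]
    · rw [if_neg fun h => h3 h.right_of_append, if_neg h2, D_zero, zero_add,
        P_zero fun h => h3 h.right_of_append]
      exact fun z => P_zero fun h => h3 h.right_of_append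
  have h2 := P_eq (by simp) hx
  rw [D_append] at h2
  simp only [h1, sum_add_distrib, D_sum, sum_ne, ih x rfl]
  rw [D_congr x (g := fun z => P (z ++ [s]) * P y) fun z hz => ih _ (by simpa using hz), D_mul]
  simp only [D, List.append_nil, List.length_append, List.length_singleton, List.append_assoc,
    List.singleton_append] at h2 ⊢
  push_cast at h2
  linear_combination (-P y) * h2

lemma right (x : List C) (t : C) (y : List C) (hy : (t :: y).IsChain (· ≠ ·))
    (ih : ∀ z : List C, z.length = y.length → ∑ a, P (x ++ a :: z) = P x * P z) :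
    ∑ a, (if (x ++ a :: t :: y).IsChain (· ≠ ·) then D (fun z => P (x ++ a :: z)) (t :: y) else 0) =
      2 * (y.length + 2) * P (t :: y) * P x - P (x ++ t :: y) := by
  have h1 : ∀ a, (if (x ++ a :: t :: y).IsChain (· ≠ ·) then
      D (fun z => P (x ++ a :: z)) (t :: y) else 0) = D (fun z => P (x ++ a :: t :: z)) y +
        if a = t then 0 else P (x ++ a :: y) := fun a => by
    by_cases h2 : a = t
    · rw [h2, if_neg (rep _ _ _), if_pos rfl, D_zero, add_zero]
      exact fun z => P_zero (rep _ _ _)
    by_cases h3 : (x ++ [a]).IsChain (· ≠ ·)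
    · rw [if_pos, if_neg h2, D, add_comm]
      rw [List.isChain_split]
      exact ⟨h3, List.isChain_cons_cons.mpr ⟨h2, hy⟩⟩
    · rw [if_neg fun h => h3 (List.isChain_split.mp h).1, if_neg h2, D_zero, zero_add,
        P_zero fun h => h3 (List.isChain_split.mp h).1]
      exact fun z => P_zero fun h => h3 (List.isChain_split.mp h).1
  have h2 := P_eq (by simp) hy
  simp only [h1, sum_add_distrib, D_sum, sum_ne, ih y rfl]
  rw [D_congr y (g := fun z => P (t :: z) * P x) fun z hz => by
    rw [ih _ (by simpa using hz), mul_comm], D_mul]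
  simp only [D, List.length_cons] at h2
  push_cast at h2
  linear_combination (-P x) * h2

theorem one_dep (n : ℕ) : ∀ x y : List C, x.length + y.length = n →
    ∑ a, P (x ++ a :: y) = P x * P y := by
  induction n using Nat.strong_induction_on with | _ n ih => ?_
  intro x y hn
  by_cases hx : x.IsChain (· ≠ ·); swap
  · rw [P_zero hx, zero_mul]
    exact sum_eq_zero fun a _ => P_zero fun h => hx h.left_of_append
  by_cases hy : y.IsChain (· ≠ ·); swap
  · rw [P_zero hy, mul_zero]
    exact sum_eq_zero fun a _ => P_zero fun h => hy h.right_of_append.tail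
  have h : ∀ a, 2 * (x.length + y.length + 2) * P (x ++ a :: y) =
      (if (x ++ a :: y).IsChain (· ≠ ·) then D (fun z => P (z ++ a :: y)) x else 0) +
      (if (x ++ a :: y).IsChain (· ≠ ·) then P (x ++ y) else 0) +
      (if (x ++ a :: y).IsChain (· ≠ ·) then D (fun z => P (x ++ a :: z)) y else 0) := fun a => by
    split_ifs with h
    · have := P_eq (by simp) h
      rw [D_append, D] at this
      simp only [List.length_append, List.length_cons] at this
      push_cast at this
      linarith
    · simp [P_zero h]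
  refine mul_left_cancel₀ (a := 2 * ((x.length : ℝ) + y.length + 2)) (by positivity) ?_
  rw [mul_sum]
  simp only [h, sum_add_distrib]
  rcases x.eq_nil_or_concat' with rfl | ⟨x, s, rfl⟩ <;> rcases y with _ | ⟨t, y⟩
  · norm_num [D, P_nil]
  · rw [right [] t y hy fun z hz => ih _ (by simp [← hn, hz]) _ _ rfl]
    have : ∀ a, ([] ++ a :: t :: y).IsChain (· ≠ ·) ↔ ¬ a = t := fun a => by simp [hy]
    simp only [this, ite_not, sum_ne]
    simp [D, P_nil]
    ring
  · rw [left x s [] hx fun z hz => ih _ (by simp [← hn, hz]) _ _ rfl]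
    have : ∀ a, (x ++ [s] ++ [a]).IsChain (· ≠ ·) ↔ ¬ a = s := fun a => by
      rw [ch]; simp [hx, eq_comm]
    simp only [this, ite_not, sum_ne]
    simp [D, P_nil]
    ring
  · rw [left x s _ hx fun z hz => ih _ (by simp [← hn, hz]) _ _ rfl,
      right _ t y hy fun z hz => ih _ (by simp [← hn, hz]) _ _ rfl]
    have : ∑ a, (if (x ++ [s] ++ a :: t :: y).IsChain (· ≠ ·) then P (x ++ [s] ++ t :: y) else 0) =
        2 * P (x ++ [s] ++ t :: y) := by
      by_cases hst : s = t
      · rw [P_zero fun h => ((ch x s t y).mp h).2.1 hst]; simp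
      have : ∀ a, (x ++ [s] ++ a :: t :: y).IsChain (· ≠ ·) ↔ s ≠ a ∧ a ≠ t := fun a => by
        rw [ch]; simp [hx, hy]
      simp only [this]
      rw [← sum_filter, sum_const, nsmul_eq_mul]
      congr 1
      exact_mod_cast (by decide : ∀ s t : C, s ≠ t → (univ.filter fun a => s ≠ a ∧ a ≠ t).card = 2) s t hst
    rw [this]
    simp only [List.length_append, List.length_cons, List.length_nil]
    push_cast
    ring

end Pool.Agent.H.MP_5bb7da_pr
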