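import Pool.Agent.H.MP_5bb7da_pr.A

namespace Pool.Agent.H.MP_5bb7da_pr

open Finset MeasureTheory ProbabilityTheory Filter Topology
open scoped ENNReal

section
variable {M N : Type} [AddCommMonoid M] [AddCommMonoid N]

def Sm : ℕ → (List C → M) → M
  | 0, f => f []
  | n + 1, f => ∑ a, Sm n fun z => f (a :: z)

lemma Sm_add : ∀ (m n : ℕ) (f : List C → M), Sm (m + n) f = Sm m fun x => Sm n fun y => f (x ++ y)
  | 0, n, f => by simp [Sm]
  | m + 1, n, f => by rw [Nat.add_right_comm]; simp only [Sm, Sm_add m, List.cons_append]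

lemma Sm_congr : ∀ (n : ℕ) {f g : List C → M}, (∀ z, z.length = n → f z = g z) → Sm n f = Sm n g
  | 0, _, _, h => h _ rfl
  | n + 1, _, _, h => sum_congr rfl fun _ _ => Sm_congr n fun z hz => h _ (by simp [hz])

lemma Sm_map (φ : M →+ N) : ∀ (n : ℕ) (f : List C → M), φ (Sm n f) = Sm n fun z => φ (f z)
  | 0, _ => rfl
  | n + 1, f => by simp only [Sm, map_sum, Sm_map φ n]

lemma Sm_single : ∀ (w : List C) (g : List C → M), (Sm w.length fun z => if z = w then g z else 0) = g w
  | [], g => by simp [Sm]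
  | b :: w, g => by
    rw [List.length_cons, Sm, sum_eq_single b, ← Sm_single w fun z => g (b :: z)]
    · simp
    · intro a _ h
      simpa [h] using (Sm_map (0 : M →+ M) w.length 0).symm
    · simp

end

noncomputable def Q (w : List C) : ℝ≥0∞ := ENNReal.ofReal (P w)

lemma Q_nil : Q [] = 1 := by simp [Q, P_nil]

lemma Q_dep (x y : List C) : ∑ a, Q (x ++ a :: y) = Q x * Q y := by
  rw [Q, Q, ← ENNReal.ofReal_mul (show 0 ≤ P x from p_nn _ _), ← one_dep _ x y rfl,
    ENNReal.ofReal_sum_of_nonneg fun a _ => show 0 ≤ P (x ++ a :: y) from p_nn _ _]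
  rfl

lemma Q_right : ∀ (n : ℕ) (w : List C), (Sm n fun y => Q (w ++ y)) = Q w
  | 0, w => by simp [Sm]
  | n + 1, w => by
    have := Q_dep w []
    rw [Q_nil, mul_one] at this
    rw [← this, Sm]
    exact sum_congr rfl fun a _ => by simpa using Q_right n (w ++ [a])

lemma Q_left : ∀ (n : ℕ) (w : List C), (Sm n fun x => Q (x ++ w)) = Q w
  | 0, w => by simp [Sm]
  | n + 1, w => by
    have := Sm_map (AddMonoidHom.mulRight (Q w)) n fun y => Q ([] ++ y)
    rw [Q_right, Q_nil] at this
    rw [Sm_add n 1]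
    simpa [Sm, Q_dep] using this.symm

def word (s : ℤ) (n : ℕ) (ω : ℤ → C) : List C := List.ofFn fun i : Fin n => ω (s + i)

def cyl (s : ℤ) (w : List C) : Set (ℤ → C) := {ω | word s w.length ω = w}

lemma word_clopen (s : ℤ) (n : ℕ) (A : Set (List C)) : IsClopen (word s n ⁻¹' A) :=
  (isClopen_discrete (List.ofFn ⁻¹' A : Set (Fin n → C))).preimage
    (f := fun ω : ℤ → C => fun i : Fin n => ω (s + i)) (by fun_prop)

lemma cyl_clopen (s : ℤ) (w : List C) : IsClopen (cyl s w) := word_clopen s _ {w}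

lemma cyl_append (s : ℤ) (x y : List C) : cyl s (x ++ y) = cyl s x ∩ cyl (s + x.length) y := by
  ext ω
  have : word s (x.length + y.length) ω = word s x.length ω ++ word (s + x.length) y.length ω := by
    simp [word, List.ofFn_add, add_assoc]
  simp only [cyl, Set.mem_ofPred_eq, List.length_append, this, Set.mem_inter_iff]
  exact ⟨fun h => List.append_inj h (by simp [word]), fun h => by rw [h.1, h.2]⟩

def ext (s : ℤ) (v : List C) : ℤ → C := fun i => v.getD (i - s).toNat 0

lemma ext_mem (s : ℤ) (x z y : List C) : ext s (x ++ (z ++ y)) ∈ cyl (s + x.length) z := by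
  refine List.ext_getElem (by simp [word]) fun i h1 h2 => ?_
  simp only [word, List.getElem_ofFn, ext]
  rw [show (s + x.length + i - s).toNat = x.length + i by omega, List.getD_append_right _ _ _ _ (by omega),
    Nat.add_sub_cancel_left, List.getD_append _ _ _ _ h2, List.getD_eq_getElem]

noncomputable def ν' (n : ℕ) : Measure (ℤ → C) := Sm (2 * n) fun v => Q v • Measure.dirac (ext (-n) v)

lemma ν'_cyl (n : ℕ) (s : ℤ) (w : List C) (h1 : -n ≤ s) (h2 : s + w.length ≤ n) :
    ν' n (cyl s w) = Q w := by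
  obtain ⟨i, rfl⟩ : ∃ i : ℕ, s = -n + i := ⟨(s + n).toNat, by omega⟩
  obtain ⟨j, hj⟩ : ∃ j, 2 * n = i + (w.length + j) := ⟨2 * n - i - w.length, by omega⟩
  let φ : Measure (ℤ → C) →+ ℝ≥0∞ := ⟨⟨fun μ => μ (cyl (-n + i) w), rfl⟩, fun _ _ => rfl⟩
  refine (Sm_map φ _ _).trans ?_
  rw [hj, Sm_add, ← Q_left i w]
  refine Sm_congr _ fun x hx => ?_
  rw [Sm_add, ← Sm_single w fun z => Q (x ++ z)]
  refine Sm_congr _ fun z hz => ?_
  have := ext_mem (-n) x z
  rw [hx] at this
  simp only [φ, AddMonoidHom.coe_mk, ZeroHom.coe_mk, Measure.smul_apply,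
    Measure.dirac_apply' _ (cyl_clopen _ _).1.measurableSet]
  split_ifs with h
  · rw [← Q_right j]
    exact Sm_congr _ fun y _ => by simp [← h, this y]
  · refine (Sm_congr _ fun y _ => ?_).trans (Sm_map (0 : ℕ →+ ℝ≥0∞) j 0).symm
    rw [Set.indicator_of_notMem fun h' => h ?_]
    · simp
    · exact (this y).symm.trans (hz ▸ h')

lemma cyl_nil (s : ℤ) : cyl s [] = Set.univ := by simp [cyl, word]

lemma exists_ν : ∃ ν : Measure (ℤ → C), IsProbabilityMeasure ν ∧ ∀ s w, ν (cyl s w) = Q w := by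
  let μ : ℕ → ProbabilityMeasure (ℤ → C) := fun n =>
    ⟨ν' n, ⟨by rw [← cyl_nil 0, ν'_cyl n 0 [] (by simp) (by simp), Q_nil]⟩⟩
  obtain ⟨ν, -, h⟩ := isCompact_univ.ultrafilter_le_nhds ((hyperfilter ℕ).map μ) (by simp)
  refine ⟨ν, inferInstance, fun s w => ?_⟩
  have h1 := ProbabilityMeasure.tendsto_measure_of_isClopen_of_tendsto (μs := μ)
    (L := (hyperfilter ℕ : Filter ℕ)) h
    (cyl_clopen s w)
  have h2 : ∀ᶠ n in hyperfilter ℕ, (μ n (cyl s w) : ℝ≥0∞) = Q w := by
    refine ((eventually_ge_atTop (s.natAbs + w.length)).filter_mono Nat.hyperfilter_le_atTop).mono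
      fun n hn => ?_
    rw [ProbabilityMeasure.ennreal_coeFn_eq_coeFn_toMeasure]
    exact ν'_cyl n s w (by omega) (by omega)
  rw [← ProbabilityMeasure.ennreal_coeFn_eq_coeFn_toMeasure]
  exact tendsto_nhds_unique (ENNReal.tendsto_coe.mpr h1) (tendsto_const_nhds.congr' (h2.mono fun _ h => h.symm))

instance : MeasurableSpace (List C) := ⊤

lemma word_meas (s : ℤ) (n : ℕ) : Measurable (word s n) := fun A _ => (word_clopen s n A).1.measurableSet

lemma word_pre (s : ℤ) (n : ℕ) (w : List C) :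
    word s n ⁻¹' {w} = if w.length = n then cyl s w else ∅ := by
  split_ifs with h
  · rw [← h]; rfl
  · exact Set.eq_empty_of_forall_notMem fun ω e => h (by rw [← Set.mem_singleton_iff.mp e]; simp [word])

lemma word_get (s : ℤ) (n : ℕ) (ω : ℤ → C) {i : ℤ} (h1 : s ≤ i) (h2 : i < s + n) :
    (word s n ω).getD (i - s).toNat 0 = ω i := by
  rw [List.getD_eq_getElem _ _ (by simp [word]; omega)]
  simp [word, h1]

lemma cyl_ext {μ ν : Measure (ℤ → C)} [IsProbabilityMeasure μ]
    (h : ∀ s w, μ (cyl s w) = ν (cyl s w)) : μ = ν := by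
  refine IsProjectiveLimit.unique (P := fun J => μ.map J.restrict) (fun _ => rfl) fun J => ?_
  obtain ⟨n, hn⟩ := (J.image Int.natAbs).exists_nat_subset_range
  have : J.restrict = (fun (l : List C) (j : J) => l.getD (j.1 - -n).toNat 0) ∘ word (-n) (2 * n) := by
    ext1 ω; ext1 j
    have := mem_range.mp (hn (mem_image_of_mem _ j.2))
    exact (word_get _ _ ω (by omega) (by omega)).symm
  simp only
  rw [this, ← Measure.map_map measurable_from_top (word_meas _ _),
    ← Measure.map_map measurable_from_top (word_meas _ _)]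
  congr 1
  refine Measure.ext_of_singleton fun w => ?_
  simp only [Measure.map_apply (word_meas _ _) MeasurableSpace.measurableSet_top, word_pre]
  split_ifs <;> simp [h]

def sh {α : Type} (n : ℤ) (ω : ℤ → α) : ℤ → α := fun i => ω (i + n)

def L {α : Type} (s : ℤ) (ω : ℤ → α) : ℕ → α := fun m => ω (s - m)

def R {α : Type} (s : ℤ) (ω : ℤ → α) : ℕ → α := fun m => ω (s + m)

section
variable {α : Type} [MeasurableSpace α]

lemma sh_meas (n : ℤ) : Measurable (sh (α := α) n) := by unfold sh; fun_prop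

lemma L_meas (n : ℤ) : Measurable (L (α := α) n) := by unfold L; fun_prop

lemma R_meas (n : ℤ) : Measurable (R (α := α) n) := by unfold R; fun_prop

end

theorem colouring : ∃ ν : Measure (ℤ → C), IsProbabilityMeasure ν ∧
    (∀ n, MeasurePreserving (sh n) ν ν) ∧ IndepFun (L 0) (R 2) ν ∧ ∀ᵐ c ∂ν, ∀ i, c i ≠ c (i + 1) := by
  obtain ⟨ν, _, h⟩ := exists_ν
  refine ⟨ν, inferInstance, fun n => ⟨sh_meas n, ?_⟩, ?_, ae_all_iff.mpr fun i => ?_⟩
  · refine (cyl_ext fun s w => ?_).symm
    rw [Measure.map_apply (sh_meas n) (cyl_clopen _ _).1.measurableSet, h, ← h (s + n)]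
    congr 1
    ext ω
    simp [cyl, word, sh, add_right_comm]
  · have key : ∀ n : ℕ, IndepFun (word (1 - n) n) (word 2 n) ν := fun n => by
      rw [indepFun_iff_map_prod_eq_prod_map_map (word_meas _ _).aemeasurable (word_meas _ _).aemeasurable]
      refine Measure.ext_of_singleton fun ⟨x, y⟩ => ?_
      rw [Measure.map_apply ((word_meas _ _).prodMk (word_meas _ _)) (measurableSet_singleton _),
        ← Set.singleton_prod_singleton, Measure.prod_prod, Set.mk_preimage_prod]
      simp only [Measure.map_apply (word_meas _ _) MeasurableSpace.measurableSet_top, word_pre]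
      split_ifs with h1 h2
      rotate_left
      · simp
      · simp
      · simp
      have e : ∀ a ω, ω ∈ cyl (1 - n) (x ++ ([a] ++ y)) ↔ ω ∈ cyl (1 - n) x ∧ ω 1 = a ∧ ω ∈ cyl 2 y :=
        fun a ω => by
          rw [cyl_append, cyl_append, h1, sub_add_cancel]
          simp [show cyl 1 [a] = {ω | ω 1 = a} by simp [cyl, word]]
      have : cyl (1 - n) x ∩ cyl 2 y = ⋃ a, cyl (1 - n) (x ++ ([a] ++ y)) := by
        ext ω
        simp only [Set.mem_iUnion, e]
        simp
      rw [this, measure_iUnion (fun a b hab => Set.disjoint_left.mpr fun ω h3 h4 => hab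
        (((e _ _).mp h3).2.1.symm.trans ((e _ _).mp h4).2.1)) fun a => (cyl_clopen _ _).1.measurableSet,
        tsum_fintype]
      simp [h, Q_dep]
    refine IndepFun.process_indepFun_process (X := fun (m : ℕ) (ω : ℤ → C) => ω (0 - m))
      (Y := fun (m : ℕ) (ω : ℤ → C) => ω (2 + m)) (by fun_prop) (by fun_prop) fun I J => ?_
    obtain ⟨n, hn⟩ := (I ∪ J).exists_nat_subset_range
    have := (key n).comp
      (φ := fun (l : List C) (j : I) => l.getD (0 - (j.1 : ℤ) - (1 - n)).toNat 0)
      (ψ := fun (l : List C) (j : J) => l.getD (2 + (j.1 : ℤ) - 2).toNat 0) measurable_from_top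
      measurable_from_top
    refine this.congr (ae_of_all _ fun ω => funext fun j => ?_) (ae_of_all _ fun ω => funext fun j => ?_)
    · have := mem_range.mp (hn (mem_union_left _ j.2))
      exact word_get _ _ ω (by omega) (by omega)
    · have := mem_range.mp (hn (mem_union_right _ j.2))
      exact word_get _ _ ω (by omega) (by omega)
  · refine measure_mono_null (t := ⋃ a, cyl i [a, a]) (fun ω hω => Set.mem_iUnion.mpr ⟨ω i, ?_⟩)
      (measure_iUnion_null fun a => by rw [h, Q, P_zero (by simp), ENNReal.ofReal_zero])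
    simp only [Set.mem_compl_iff, Set.mem_ofPred_eq, not_not] at hω
    simp [cyl, word, hω]

end Pool.Agent.H.MP_5bb7da_pr
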