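import Pool.Agent.H.MP_5bb7da_pr.B

namespace Pool.Agent.H.MP_5bb7da_pr

open Finset MeasureTheory ProbabilityTheory Filter Topology

section
variable {Ω Ω' β γ : Type} [MeasurableSpace Ω] [MeasurableSpace Ω'] [MeasurableSpace β]
  [MeasurableSpace γ]

lemma indep_mp {μ : Measure Ω} {ν : Measure Ω'} {φ : Ω → Ω'} (h : MeasurePreserving φ μ ν)
    {f : Ω' → β} {g : Ω' → γ} (hf : Measurable f) (hg : Measurable g) :
    IndepFun f g ν ↔ IndepFun (f ∘ φ) (g ∘ φ) μ := by
  simp only [indepFun_iff_measure_inter_preimage_eq_mul, Set.preimage_comp, ← Set.preimage_inter]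
  refine forall₄_congr fun s t hs ht => ?_
  rw [h.measure_preimage ((hf hs).inter (hg ht)).nullMeasurableSet,
    h.measure_preimage (hf hs).nullMeasurableSet, h.measure_preimage (hg ht).nullMeasurableSet]

lemma indep_mono {μ : Measure (ℤ → β)} {k j : ℤ} (h : IndepFun (L 0) (R k) μ) (hj : k ≤ j) :
    IndepFun (L 0) (R j) μ := by
  have := h.comp measurable_id (ψ := fun (l : ℕ → β) (m : ℕ) => l ((j - k).toNat + m)) (by fun_prop)
  refine this.congr (ae_of_all _ fun _ => rfl) (ae_of_all _ fun ω => funext fun m => ?_)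
  simp only [R, Function.comp]
  congr 1
  omega

lemma meas_eval {ι : Type} [Countable ι] [MeasurableSpace ι] [MeasurableSingletonClass ι]
    {c : Ω → ι → β} (hc : Measurable c) {n : Ω → ι} (hn : Measurable n) :
    Measurable fun ω => c ω (n ω) :=
  (measurable_from_prod_countable_left (f := fun p : (ι → β) × ι => p.1 p.2)
    fun y => measurable_pi_apply y).comp (hc.prodMk hn)

lemma shuffle {δ : Type} [MeasurableSpace δ] (a : Measure Ω) (b : Measure β) (c : Measure γ)
    (d : Measure δ) [SFinite a] [SFinite b] [SFinite c] [SFinite d] :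
    MeasurePreserving (fun p : (Ω × β) × γ × δ => ((p.1.1, p.2.1), (p.1.2, p.2.2)))
      ((a.prod b).prod (c.prod d)) ((a.prod c).prod (b.prod d)) :=
  (measurePreserving_prodAssoc a c (b.prod d)).symm.comp <|
    ((MeasurePreserving.id a).prod ((measurePreserving_prodAssoc c b d).comp <|
      ((Measure.measurePreserving_swap (μ := b) (ν := c)).prod (MeasurePreserving.id d)).comp
        (measurePreserving_prodAssoc b c d).symm)).comp (measurePreserving_prodAssoc a b (c.prod d))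

end

open Classical in
noncomputable def ind (a : Prop) : ℤ := if a then 1 else 0

lemma ind_nn (a : Prop) : 0 ≤ ind a := by unfold ind; split_ifs <;> norm_num

noncomputable def cnt (l : ℕ → Prop) (m : ℕ) : ℤ := ∑ j ∈ range m, ind (l j)

lemma cnt_meas (m : ℕ) : Measurable fun l => cnt l m :=
  Finset.measurable_sum _ fun j _ => (measurable_from_top (f := ind)).comp (measurable_pi_apply j)

lemma cnt_nn (l : ℕ → Prop) (m : ℕ) : 0 ≤ cnt l m := sum_nonneg fun _ _ => ind_nn _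

noncomputable def idx (y : ℤ → Prop) (i : ℤ) : ℤ := cnt (R 0 y) i.toNat - cnt (L (-1) y) (-i).toNat

lemma idx_meas (i : ℤ) : Measurable fun y => idx y i :=
  ((cnt_meas _).comp (R_meas 0)).sub ((cnt_meas _).comp (L_meas _))

lemma idx_succ (y : ℤ → Prop) (i : ℤ) : idx y (i + 1) = idx y i + ind (y i) := by
  rcases le_or_gt 0 i with h | h
  · obtain ⟨n, rfl⟩ := Int.eq_ofNat_of_zero_le h
    rw [idx, idx, show ((n : ℤ) + 1).toNat = n + 1 by omega, show (-((n : ℤ) + 1)).toNat = 0 by omega,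
      show (-(n : ℤ)).toNat = 0 by omega]
    simp [cnt, sum_range_succ, R]
  · obtain ⟨n, rfl⟩ : ∃ n : ℕ, i = -1 - n := ⟨(-1 - i).toNat, by omega⟩
    rw [idx, idx, show (-1 - (n : ℤ) + 1).toNat = 0 by omega, show (-(-1 - (n : ℤ) + 1)).toNat = n by omega,
      show (-1 - (n : ℤ)).toNat = 0 by omega, show (-(-1 - (n : ℤ))).toNat = n + 1 by omega]
    simp [cnt, sum_range_succ, L]

lemma idx_zero (y : ℤ → Prop) : idx y 0 = 0 := by simp [idx, cnt]

lemma idx_add (y : ℤ → Prop) (n i : ℤ) : idx y (i + n) = idx (sh n y) i + idx y n := by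
  induction i using Int.induction_on with
  | zero => simp [idx_zero]
  | succ i ih => rw [add_right_comm, idx_succ, idx_succ, ih, add_right_comm]; rfl
  | pred i ih =>
    have h1 := idx_succ y (-i - 1 + n)
    have h2 := idx_succ (sh n y) (-i - 1)
    rw [show -(i : ℤ) - 1 + n + 1 = -i + n by ring] at h1
    rw [sub_add_cancel] at h2
    change _ = _ + ind (y (-i - 1 + n)) at h2
    linarith

lemma idx_R (y : ℤ → Prop) (k : ℤ) (m : ℕ) : idx y (k + m) = idx y k + cnt (R k y) m := by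
  induction m with
  | zero => simp [cnt]
  | succ m ih => rw [Nat.cast_succ, ← add_assoc, idx_succ, ih, cnt, cnt, sum_range_succ, add_assoc]; rfl

lemma idx_L (y : ℤ → Prop) (m : ℕ) : idx y (0 - m) = 0 - cnt (fun j => L 0 y (j + 1)) m := by
  rw [idx, show (0 - (m : ℤ)).toNat = 0 by omega, show (-(0 - (m : ℤ))).toNat = m by omega]
  congr 2
  ext j
  simp only [L]
  rw [show -1 - (j : ℤ) = 0 - (j + 1 : ℕ) by omega]

def K (r : ℤ) : ℕ → (ℤ → ℕ) → ℤ → Prop
  | 0, _, _ => False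
  | c + 1, κ, i => K r c κ i ∨ (κ i = c + 1 ∧ ∀ j, |j| < r → ¬ K r c κ (i + j))

lemma K_sh (r n : ℤ) (κ : ℤ → ℕ) : ∀ c i, K r c (sh n κ) i = K r c κ (i + n)
  | 0, _ => rfl
  | c + 1, i => by simp only [K, K_sh r n κ c, sh, add_right_comm]

lemma K_meas {Ω : Type} [MeasurableSpace Ω] {r : ℤ} (hr : 0 ≤ r) {κ : Ω → ℤ → ℕ} : ∀ (c : ℕ) (i : ℤ),
    (∀ j, |j - i| ≤ r * c → Measurable fun ω => κ ω j) → Measurable fun ω => K r c (κ ω) i
  | 0, _, _ => measurable_const
  | c + 1, i, h => by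
    refine (K_meas hr c i fun j hj => h j (by push_cast; nlinarith)).or
      (((h i (by simp; positivity)).eq_const _).and (Measurable.forall fun j => ?_))
    by_cases hj : |j| < r
    · refine measurable_const.imp (K_meas hr c _ fun l hl => h l ?_).not
      have := abs_add_le (l - (i + j)) j
      rw [show l - (i + j) + j = l - i by ring] at this
      push_cast; nlinarith
    · simp [hj]

lemma K_ne (r : ℤ) (κ : ℤ → ℕ) (i : ℤ) : ∀ c, K r c κ i → κ i ≠ 0
  | 0, h => h.elim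
  | c + 1, h => h.elim (K_ne r κ i c) fun h => by omega

lemma K_sep {r : ℤ} {κ : ℤ → ℕ} (hκ : ∀ i j, κ i ≠ 0 → κ j ≠ 0 → i < j → j < i + r → κ i ≠ κ j)
    {i j : ℤ} (h1 : i < j) (h2 : j < i + r) : ∀ c, K r c κ i → K r c κ j → False
  | 0, h, _ => h
  | c + 1, .inl h, .inl h' => K_sep hκ h1 h2 c h h'
  | _ + 1, .inl h, .inr h' => h'.2 (i - j) (abs_lt.mpr ⟨by omega, by omega⟩) (by simpa using h)
  | _ + 1, .inr h, .inl h' => h.2 (j - i) (abs_lt.mpr ⟨by omega, by omega⟩) (by simpa using h')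
  | _ + 1, .inr h, .inr h' => hκ i j (by omega) (by omega) h1 h2 (by omega)

lemma K_cov {r : ℤ} (hr : 0 < r) (κ : ℤ → ℕ) (i : ℤ) (h : κ i ≠ 0) :
    ∀ c, κ i ≤ c → ∃ j, |j| < r ∧ K r c κ (i + j)
  | 0, h' => by omega
  | c + 1, h' => by
    rcases h'.eq_or_lt with e | e
    · by_contra hc
      push Not at hc
      exact hc 0 (by simpa) (.inr ⟨by simpa, fun j hj h => hc j hj (.inl (by simpa using h))⟩)
    · obtain ⟨j, h1, h2⟩ := K_cov hr κ i h c (by omega)
      exact ⟨j, h1, .inl h2⟩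

open Classical in
noncomputable def col (a : Prop) (c : C) : ℕ := if a then c.val + 1 else 0

noncomputable def Ψ (p : (ℤ → Prop) × (ℤ → C)) (i : ℤ) : ℕ := col (p.1 i) (p.2 (idx p.1 i))

noncomputable def T (n : ℤ) (p : (ℤ → Prop) × (ℤ → C)) : (ℤ → Prop) × (ℤ → C) :=
  (sh n p.1, sh (idx p.1 n) p.2)

lemma Ψ_T (n : ℤ) (p : (ℤ → Prop) × (ℤ → C)) : Ψ (T n p) = sh n (Ψ p) := by
  ext i
  simp only [Ψ, T, sh, idx_add]

lemma Ψ_aux {Ω : Type} [MeasurableSpace Ω] {a : Ω → Prop} {b : Ω → C} (ha : Measurable a)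
    (hb : Measurable b) : Measurable fun ω => col (a ω) (b ω) :=
  (measurable_of_countable fun p : Prop × C => col p.1 p.2).comp (ha.prodMk hb)

lemma Ψ_meas (i : ℤ) : Measurable fun p => Ψ p i :=
  Ψ_aux (by fun_prop) (meas_eval measurable_snd ((idx_meas i).comp measurable_fst))

def Good (r : ℤ) (μ : Measure (ℤ → Prop)) : Prop :=
  IsProbabilityMeasure μ ∧ (∀ n, MeasurePreserving (sh n) μ μ) ∧ IndepFun (L 0) (R (16 * r)) μ ∧
    ∀ᵐ y ∂μ, (∀ i j, y i → y j → i < j → i + r ≤ j) ∧ ∀ i, ∃ p, y p ∧ |p - i| < 2 * r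

lemma two_le {r : ℤ} {y : ℤ → Prop} (h : ∀ i, ∃ p, y p ∧ |p - i| < 2 * r) : 2 ≤ idx y (16 * r) := by
  obtain ⟨a, ha, h1⟩ := h (2 * r)
  obtain ⟨b, hb, h2⟩ := h (6 * r)
  rw [abs_lt] at h1 h2
  have := idx_R y 0 (16 * r).toNat
  rw [zero_add, idx_zero, zero_add, Int.toNat_of_nonneg (by omega)] at this
  rw [this]
  refine le_trans ?_ (sum_le_sum_of_subset_of_nonneg (s := {a.toNat, b.toNat}) ?_
    fun _ _ _ => ind_nn _)
  · rw [sum_pair (by omega)]
    simp [R, ind, max_eq_left (show 0 ≤ a by omega), max_eq_left (show 0 ≤ b by omega), ha, hb]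
  · simp only [insert_subset_iff, singleton_subset_iff, mem_range]
    omega

lemma idx_next {r : ℤ} {y : ℤ → Prop} (h : ∀ i j, y i → y j → i < j → i + r ≤ j) {i j : ℤ} (hi : y i)
    (hj : y j) (h1 : i < j) (h2 : j < i + 2 * r) : idx y j = idx y i + 1 := by
  have := idx_R y i (j - i).toNat
  rw [Int.toNat_of_nonneg (by omega), add_sub_cancel] at this
  rw [this, cnt, sum_eq_single_of_mem 0 (by simp; omega) fun m hm h0 =>
    show ind (R i y m) = 0 from if_neg fun hy => ?_]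
  · simp [R, hi, ind]
  · have := mem_range.mp hm
    have := h _ _ hi hy (by omega)
    have := h _ _ hy hj (by omega)
    omega

lemma law {ν : Measure (ℤ → C)} [IsProbabilityMeasure ν] (g1 : ∀ n, MeasurePreserving (sh n) ν ν)
    (g2 : IndepFun (L 0) (R 2) ν) {j : ℤ} (hj : 2 ≤ j) :
    ν.map (fun c => (L 0 c, R j c)) = (ν.map (L 0)).prod (ν.map (R 0)) := by
  have : R j = R 0 ∘ sh (α := C) j := by
    ext c m
    simp [R, sh, add_comm]
  rw [(indepFun_iff_map_prod_eq_prod_map_map (L_meas _).aemeasurable (R_meas _).aemeasurable).mp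
    (indep_mono g2 hj), this, ← Measure.map_map (R_meas 0) (sh_meas j), (g1 j).2]

def A (p : (ℤ → Prop) × (ℤ → C)) : (ℕ → Prop) × (ℕ → C) := (L 0 p.1, L 0 p.2)

noncomputable def B (k : ℤ) (p : (ℤ → Prop) × (ℤ → C)) : (ℕ → Prop) × (ℕ → C) :=
  (R k p.1, R (idx p.1 k) p.2)

lemma indep_AB {μ : Measure (ℤ → Prop)} {ν : Measure (ℤ → C)} [IsProbabilityMeasure μ]
    [IsProbabilityMeasure ν] (g1 : ∀ n, MeasurePreserving (sh n) ν ν) (g2 : IndepFun (L 0) (R 2) ν)
    {k : ℤ} (h2 : IndepFun (L 0) (R k) μ) (h3 : ∀ᵐ y ∂μ, 2 ≤ idx y k) : IndepFun A (B k) (μ.prod ν) := by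
  have a1 : MeasurePreserving (fun y => (L 0 y, R k y)) μ ((μ.map (L 0)).prod (μ.map (R k))) :=
    ⟨(L_meas _).prodMk (R_meas _),
      (indepFun_iff_map_prod_eq_prod_map_map (L_meas _).aemeasurable (R_meas _).aemeasurable).mp h2⟩
  have a0 : Measurable fun p : (ℤ → Prop) × (ℤ → C) => R (idx p.1 k) p.2 :=
    measurable_pi_lambda _ fun i => meas_eval measurable_snd
      (((idx_meas _).comp measurable_fst).add_const _)
  have a2 := a1.skew_product (g := fun y c => (L 0 c, R (idx y k) c)) (μc := ν)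
    (μd := (ν.map (L 0)).prod (ν.map (R 0))) (((L_meas _).comp measurable_snd).prodMk a0)
    (h3.mono fun y hy => law g1 g2 hy)
  have := Measure.isProbabilityMeasure_map (μ := μ) (L_meas 0).aemeasurable
  have := Measure.isProbabilityMeasure_map (μ := μ) (R_meas k).aemeasurable
  have := Measure.isProbabilityMeasure_map (μ := ν) (L_meas 0).aemeasurable
  have := Measure.isProbabilityMeasure_map (μ := ν) (R_meas 0).aemeasurable
  exact (indep_mp ((shuffle _ _ _ _).comp a2) measurable_fst measurable_snd).mp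
    (indepFun_prod measurable_id measurable_id)

lemma Ψ_A {Ω : Type} [MeasurableSpace Ω] {q : Ω → (ℤ → Prop) × (ℤ → C)} (h : Measurable fun ω => A (q ω))
    {j : ℤ} (hj : j ≤ 0) : Measurable fun ω => Ψ (q ω) j := by
  obtain ⟨n, rfl⟩ : ∃ n : ℕ, j = 0 - n := ⟨(-j).toNat, by omega⟩
  have : ∀ p, Ψ p (0 - n) = col ((A p).1 n)
      ((A p).2 (cnt (fun j => (A p).1 (j + 1)) n).toNat) := fun p => by
    simp only [Ψ, idx_L, A, L, Int.toNat_of_nonneg (cnt_nn _ _)]
  simp only [this]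
  exact Ψ_aux ((measurable_pi_apply n).comp h.fst) (meas_eval h.snd
    ((measurable_from_top (f := Int.toNat)).comp ((cnt_meas n).comp
      (measurable_pi_lambda _ fun j => (measurable_pi_apply (j + 1)).comp h.fst))))

lemma Ψ_B {Ω : Type} [MeasurableSpace Ω] {q : Ω → (ℤ → Prop) × (ℤ → C)} {k : ℤ}
    (h : Measurable fun ω => B k (q ω)) {j : ℤ} (hj : k ≤ j) : Measurable fun ω => Ψ (q ω) j := by
  obtain ⟨n, rfl⟩ : ∃ n : ℕ, j = k + n := ⟨(j - k).toNat, by omega⟩
  have : ∀ p, Ψ p (k + n) = col ((B k p).1 n) ((B k p).2 (cnt (B k p).1 n).toNat) := fun p => by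
    simp only [Ψ, idx_R, B, R, Int.toNat_of_nonneg (cnt_nn _ _)]
  simp only [this]
  exact Ψ_aux ((measurable_pi_apply n).comp h.fst) (meas_eval h.snd
    ((measurable_from_top (f := Int.toNat)).comp ((cnt_meas n).comp h.fst)))

def Φ (r : ℤ) (p : (ℤ → Prop) × (ℤ → C)) : ℤ → Prop := K (2 * r) 4 (Ψ p)

lemma Φ_meas {r : ℤ} (hr : 0 < r) : Measurable (Φ r) :=
  measurable_pi_lambda _ fun i => K_meas (by omega) 4 i fun j _ => Ψ_meas j

lemma Φ_T (r n : ℤ) (p : (ℤ → Prop) × (ℤ → C)) (i : ℤ) : Φ r (T n p) i = Φ r p (i + n) := by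
  simp only [Φ, Ψ_T, K_sh]

lemma Φ_good {r : ℤ} (hr : 0 < r) {p : (ℤ → Prop) × (ℤ → C)}
    (hy : (∀ i j, p.1 i → p.1 j → i < j → i + r ≤ j) ∧ ∀ i, ∃ q, p.1 q ∧ |q - i| < 2 * r)
    (hc : ∀ i, p.2 i ≠ p.2 (i + 1)) :
    (∀ i j, Φ r p i → Φ r p j → i < j → i + 2 * r ≤ j) ∧ ∀ i, ∃ q, Φ r p q ∧ |q - i| < 2 * (2 * r) := by
  refine ⟨fun i j hi hj hij => not_lt.mp fun hlt => K_sep (fun i j hi hj h4 h5 => ?_) hij hlt 4 hi hj,
    fun i => ?_⟩
  · unfold Ψ col at hi hj ⊢
    split_ifs at hi hj ⊢ with a1 a2 <;> try contradiction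
    rw [idx_next hy.1 a1 a2 h4 h5]
    exact fun e => hc (idx p.1 i) (Fin.ext (by omega))
  · obtain ⟨q, a1, a2⟩ := hy.2 i
    obtain ⟨j, a3, a4⟩ := K_cov (r := 2 * r) (by omega) (Ψ p) q (by simp [Ψ, col, a1]) 4 (by
      simp only [Ψ, col, a1, if_true]; omega)
    exact ⟨_, a4, by rw [abs_lt] at *; omega⟩

lemma step {r : ℤ} (hr : 0 < r) {μ : Measure (ℤ → Prop)} (h : Good r μ) : ∃ μ', Good (2 * r) μ' := by
  obtain ⟨_, h1, h2, h3⟩ := h
  obtain ⟨ν, _, g1, g2, g3⟩ := colouring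
  have hΦ := Φ_meas hr
  have mΦ : MeasurePreserving (Φ r) (μ.prod ν) ((μ.prod ν).map (Φ r)) := ⟨hΦ, rfl⟩
  have hT : ∀ n, MeasurePreserving (T n) (μ.prod ν) (μ.prod ν) := fun n =>
    (h1 n).skew_product (g := fun y c => sh (idx y n) c) (measurable_pi_lambda _ fun i =>
      meas_eval measurable_snd (((idx_meas n).comp measurable_fst).const_add i))
      (ae_of_all _ fun y => (g1 _).map_eq)
  refine ⟨(μ.prod ν).map (Φ r), Measure.isProbabilityMeasure_map hΦ.aemeasurable,
    fun n => ⟨sh_meas n, ?_⟩, ?_, ?_⟩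
  · rw [Measure.map_map (sh_meas n) hΦ, show sh n ∘ Φ r = Φ r ∘ T n from funext fun p => funext fun i =>
      (Φ_T r n p i).symm, ← Measure.map_map hΦ (hT n).1, (hT n).2]
  · have hAB := indep_AB g1 g2 h2 (h3.mono fun y hy => two_le hy.2)
    have hF : Measurable[MeasurableSpace.comap A inferInstance]
        fun p (m : ℕ) => Φ r p (0 - m - 8 * r) := by
      have hA := comap_measurable (m := inferInstance) A
      let _ := MeasurableSpace.comap A inferInstance
      exact measurable_pi_lambda _ fun m => K_meas (by omega) 4 _ fun j hj =>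
        Ψ_A (q := id) hA (by rw [abs_le] at hj; omega)
    have hG : Measurable[MeasurableSpace.comap (B (16 * r)) inferInstance]
        fun p (m : ℕ) => Φ r p (24 * r + m) := by
      have hB := comap_measurable (m := inferInstance) (B (16 * r))
      let _ := MeasurableSpace.comap (B (16 * r)) inferInstance
      exact measurable_pi_lambda _ fun m => K_meas (by omega) 4 _ fun j hj =>
        Ψ_B (q := id) hB (by rw [abs_le] at hj; omega)
    have hFG : IndepFun (fun p (m : ℕ) => Φ r p (0 - m - 8 * r)) (fun p (m : ℕ) => Φ r p (24 * r + m))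
        (μ.prod ν) := indep_of_indep_of_le hAB hF.comap_le hG.comap_le
    rw [indep_mp mΦ (L_meas _) (R_meas _)]
    refine ((indep_mp (hT (8 * r)) (measurable_pi_lambda _ fun _ => (measurable_pi_apply _).comp hΦ)
      (measurable_pi_lambda _ fun _ => (measurable_pi_apply _).comp hΦ)).mp hFG).congr
      (ae_of_all _ fun p => funext fun m => ?_) (ae_of_all _ fun p => funext fun m => ?_)
    · simp only [Function.comp, Φ_T, L, sub_add_cancel]
    · simp only [Function.comp, Φ_T, R]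
      congr 1; ring
  · rw [ae_map_iff hΦ.aemeasurable (measurableSet_setOfPred.mpr (by fun_prop))]
    filter_upwards [Measure.quasiMeasurePreserving_fst.ae h3, Measure.quasiMeasurePreserving_snd.ae g3]
      with p hy hc using Φ_good hr hy hc

theorem good (N : ℕ) : ∃ μ, Good (2 ^ N) μ := by
  induction N with
  | zero =>
    refine ⟨Measure.dirac fun _ => True, inferInstance, fun n => ⟨sh_meas n, Measure.map_dirac' (sh_meas n) _⟩,
      ?_, ?_⟩
    · rw [indepFun_iff_map_prod_eq_prod_map_map (L_meas _).aemeasurable (R_meas _).aemeasurable,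
        Measure.map_dirac' ((L_meas _).prodMk (R_meas _)), Measure.map_dirac' (L_meas _),
        Measure.map_dirac' (R_meas _), Measure.dirac_prod_dirac]
    · rw [ae_dirac_eq]
      exact ⟨fun i j _ _ h => by omega, fun i => ⟨i, trivial, by simp⟩⟩
  | succ N ih => rw [pow_succ']; exact ih.elim fun _ h => step (by positivity) h

end Pool.Agent.H.MP_5bb7da_pr
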