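import Pool.Agent.H.MP_5bb7da_pr.C

namespace Pool.Agent.H.MP_5bb7da_pr

open Set MeasureTheory ProbabilityTheory Filter Topology

abbrev F := C(ℝ, ℝ)

instance : MeasurableSpace F := borel F

instance : BorelSpace F := ⟨rfl⟩

lemma meas_F {Ω : Type} [MeasurableSpace Ω] {φ : Ω → F} (h : ∀ s, Measurable fun ω => φ ω s) :
    Measurable φ := by
  have : MeasurableEmbedding fun (f : F) (q : ℚ) => f q :=
    Continuous.measurableEmbedding (by fun_prop) fun f g e =>
      DFunLike.coe_injective (Rat.denseRange_cast.equalizer f.continuous g.continuous e)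
  exact this.measurable_comp_iff.mp (measurable_pi_lambda _ fun q => h q)

lemma closed_ex {X T : Type} [TopologicalSpace X] [TopologicalSpace T] {S : Set T} (hS : IsCompact S)
    {r : X → T → Prop} (h : IsClosed {p : X × T | r p.1 p.2}) : IsClosed {x | ∃ s ∈ S, r x s} := by
  have := isCompact_iff_compactSpace.mp hS
  have := isClosedMap_fst_of_compactSpace _
    (h.preimage (f := fun p : X × S => (p.1, p.2.1)) (by fun_prop))
  rwa [show Prod.fst '' _ = {x | ∃ s ∈ S, r x s} by ext; simp] at this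

def E : Set F := {f | ((∀ s t, f s - f t ≤ |s - t|) ∧ ∀ s, f s ∈ Icc 0 1) ∧
  (∀ s t, min |t - s| (1 - |t - s|) ≤ f s + f t) ∧ ∀ t, ∃ s ∈ Icc t (t + 5), f s = 0}

lemma lip {g : ℝ → ℝ} (h : ∀ s t, g s - g t ≤ |s - t|) : LipschitzWith 1 g :=
  LipschitzWith.of_le_add fun s t => by have := h s t; rw [Real.dist_eq]; linarith

lemma E_compact : IsCompact E := by
  have h : IsCompact {f : F | (∀ s t, f s - f t ≤ |s - t|) ∧ ∀ s, f s ∈ Icc 0 1} := by
    refine ArzelaAscoli.isCompact_of_equicontinuous _ ?_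
      (LipschitzWith.uniformEquicontinuous _ 1 fun f => lip f.2.1).equicontinuous
    rw [show ContinuousMap.toFun '' _ = {g : ℝ → ℝ | ∀ s t, g s - g t ≤ |s - t|} ∩ pi univ fun _ => Icc 0 1
      from ?_]
    · refine (isCompact_univ_pi fun _ => isCompact_Icc).inter_left ?_
      simp only [ofPred_forall]
      exact isClosed_iInter fun s => isClosed_iInter fun t => isClosed_le (by fun_prop) (by fun_prop)
    · ext g
      exact ⟨fun ⟨f, h, e⟩ => e ▸ ⟨h.1, fun s _ => h.2 s⟩,
        fun h => ⟨⟨g, (lip h.1).continuous⟩, ⟨h.1, fun s => h.2 s trivial⟩, rfl⟩⟩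
  refine h.inter_right (t := {f : F | ∀ s t, min |t - s| (1 - |t - s|) ≤ f s + f t} ∩
    {f : F | ∀ t, ∃ s ∈ Icc t (t + 5), f s = 0}) (IsClosed.inter ?_ ?_) <;> simp only [ofPred_forall]
  · exact isClosed_iInter fun s => isClosed_iInter fun t => isClosed_le (by fun_prop) (by fun_prop)
  · exact isClosed_iInter fun t => closed_ex isCompact_Icc (isClosed_eq (by fun_prop) (by fun_prop))

instance : CompactSpace E := isCompact_iff_compactSpace.mp E_compact

open Classical in
noncomputable def hh (a : Prop) (d : ℝ) : ℝ := if a then min 1 |d| else 1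

lemma hh_mem (a : Prop) (d : ℝ) : hh a d ∈ Icc (0 : ℝ) 1 := by
  unfold hh; split_ifs
  exacts [⟨by positivity, min_le_left _ _⟩, by simp]

noncomputable def g (r : ℝ) (y : ℤ → Prop) (s : ℝ) : ℝ := ⨅ i : ℤ, hh (y i) (s - 1 - i / r)

lemma g_le (r : ℝ) (y : ℤ → Prop) (s : ℝ) (i : ℤ) : g r y s ≤ hh (y i) (s - 1 - i / r) :=
  ciInf_le ⟨0, by rintro _ ⟨j, rfl⟩; exact (hh_mem _ _).1⟩ i

lemma g_lip (r : ℝ) (y : ℤ → Prop) (s t : ℝ) : g r y s - g r y t ≤ |s - t| := by
  rw [sub_le_comm]
  refine le_ciInf fun i => (sub_le_sub_right (g_le r y s i) _).trans ?_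
  have := abs_add_le (s - t) (t - 1 - i / r)
  rw [show s - t + (t - 1 - i / r) = s - 1 - i / r by ring] at this
  have := abs_nonneg (s - t)
  unfold hh
  split_ifs
  · simp only [min_def]; split_ifs <;> linarith
  · linarith

noncomputable def G (r : ℝ) (y : ℤ → Prop) : F := ⟨g r y, (lip (g_lip r y)).continuous⟩

lemma g_meas {Ω : Type} [MeasurableSpace Ω] {y : Ω → ℤ → Prop} (r s : ℝ)
    (h : ∀ i : ℤ, |s - 1 - i / r| < 1 → Measurable fun ω => y ω i) : Measurable fun ω => g r (y ω) s := by
  refine Measurable.iInf fun i => ?_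
  by_cases hi : |s - 1 - i / r| < 1
  · exact (measurable_from_top (f := fun a => hh a _)).comp (h i hi)
  · simp [hh, min_eq_left (not_lt.mp hi)]

lemma G_meas (r : ℝ) : Measurable (G r) := meas_F fun s => g_meas r s fun i _ => measurable_pi_apply i

lemma G_mem {r : ℤ} (hr : 0 < r) {y : ℤ → Prop} (h1 : ∀ i j, y i → y j → i < j → i + r ≤ j)
    (h2 : ∀ i, ∃ p, y p ∧ |p - i| < 2 * r) : G r y ∈ E := by
  have hr' : (0 : ℝ) < r := by exact_mod_cast hr
  have h0 : ∀ s, 0 ≤ g r y s := fun s => le_ciInf fun i => (hh_mem _ _).1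
  refine ⟨⟨g_lip r y, fun s => ⟨h0 s, (g_le r y s 0).trans (hh_mem _ _).2⟩⟩, fun s t => ?_, fun t => ?_⟩
  · change _ ≤ g r y s + g r y t
    rw [← sub_le_iff_le_add]
    refine le_ciInf fun i => sub_le_comm.mp (le_ciInf fun j => ?_)
    have a1 := min_le_left |t - s| (1 - |t - s|)
    have a2 := min_le_right |t - s| (1 - |t - s|)
    have a3 := (hh_mem (y i) (s - 1 - i / r)).1
    have a4 := (hh_mem (y j) (t - 1 - j / r)).1
    have a5 : i = j ∨ 1 ≤ |(i : ℝ) / r - j / r| ∨ ¬ y i ∨ ¬ y j := by
      by_contra hc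
      push Not at hc
      rw [← sub_div, abs_div, abs_of_pos hr', div_lt_one hr'] at hc
      have : |i - j| < r := by exact_mod_cast hc.2.1
      rw [abs_lt] at this
      rcases lt_or_gt_of_ne hc.1 with h | h
      · have := h1 _ _ hc.2.2.1 hc.2.2.2 h; omega
      · have := h1 _ _ hc.2.2.2 hc.2.2.1 h; omega
    unfold hh at *
    grind
  · obtain ⟨p, a1, a2⟩ := h2 ⌊(t + 2) * r⌋
    have a3 := Int.floor_le ((t + 2) * r)
    have a4 := Int.lt_floor_add_one ((t + 2) * r)
    have a5 : |(p : ℝ) - ⌊(t + 2) * r⌋| < 2 * r := by exact_mod_cast a2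
    have a6 : (1 : ℝ) ≤ r := by exact_mod_cast hr
    rw [abs_lt] at a5
    refine ⟨1 + p / r, ⟨?_, ?_⟩, le_antisymm ((g_le r y _ p).trans_eq (by simp [hh, a1])) (h0 _)⟩
    · rw [← sub_le_iff_le_add', le_div_iff₀ hr']; linarith
    · rw [← le_sub_iff_add_le', div_le_iff₀ hr']; linarith

def τ (t : ℝ) (f : F) : F := f.comp ⟨fun s => s + t, by fun_prop⟩

lemma τ_mem (t : ℝ) {f : F} (h : f ∈ E) : τ t f ∈ E := by
  refine ⟨⟨fun a b => by simpa [τ] using h.1.1 (a + t) (b + t), fun s => h.1.2 _⟩,
    fun a b => by simpa [τ] using h.2.1 (a + t) (b + t), fun a => ?_⟩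
  obtain ⟨s, h1, h2⟩ := h.2.2 (a + t)
  exact ⟨s - t, ⟨by linarith [h1.1], by linarith [h1.2]⟩, by simpa [τ] using h2⟩

def τE (t : ℝ) (f : E) : E := ⟨τ t f, τ_mem t f.2⟩

lemma τE_cont (t : ℝ) : Continuous (τE t) :=
  ((ContinuousMap.continuous_precomp _).comp continuous_subtype_val).subtype_mk _

lemma τE_cont' (f : E) : Continuous fun t => τE t f :=
  (ContinuousMap.continuous_of_continuous_uncurry (fun t => τ t f)
    (f.1.continuous.comp (continuous_snd.add continuous_fst))).subtype_mk _

lemma G_sh (r : ℝ) (n : ℤ) (y : ℤ → Prop) : G r (sh n y) = τ (n / r) (G r y) := by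
  ext s
  refine Eq.trans ?_ ((Equiv.addRight n).iInf_comp (g := fun i => hh (y i) (s + n / r - 1 - i / r)))
  refine iInf_congr fun i => ?_
  simp only [sh, Equiv.coe_addRight]
  congr 1
  push_cast
  ring

def ρ₁ (f : F) : F := f.comp ⟨fun s => min s 0, by fun_prop⟩

def ρ₂ (f : F) : F := f.comp ⟨fun s => max s 18, by fun_prop⟩

lemma ρ₁_cont : Continuous fun f : E => ρ₁ f :=
  (ContinuousMap.continuous_precomp _).comp continuous_subtype_val

lemma ρ₂_cont : Continuous fun f : E => ρ₂ f :=
  (ContinuousMap.continuous_precomp _).comp continuous_subtype_val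

lemma pre {r : ℤ} (hr : 0 < r) {μ : Measure (ℤ → Prop)} (h : Good r μ) : ∃ P : ProbabilityMeasure E,
    (∀ n : ℤ, (P : Measure E).map (τE (n / r)) = P) ∧
      IndepFun (fun f : E => ρ₁ f) (fun f : E => ρ₂ f) (P : Measure E) := by
  classical
  obtain ⟨_, h1, h2, h3⟩ := h
  have hr' : (0 : ℝ) < r := by exact_mod_cast hr
  have h0 : G (1 : ℤ) (fun _ => True) ∈ E :=
    G_mem one_pos (fun i j _ _ h => by omega) fun i => ⟨i, trivial, by simp⟩
  let γ : (ℤ → Prop) → E := fun y => ⟨if G r y ∈ E then G r y else G (1 : ℤ) fun _ => True, by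
    split_ifs <;> assumption⟩
  have hγ : Measurable γ := Measurable.subtype_mk
    (Measurable.ite (G_meas r E_compact.isClosed.measurableSet) (G_meas r) measurable_const)
  have ha : ∀ᵐ y ∂μ, (γ y : F) = G r y := h3.mono fun y hy => if_pos (G_mem hr hy.1 hy.2)
  refine ⟨⟨μ.map γ, Measure.isProbabilityMeasure_map hγ.aemeasurable⟩, fun n => ?_, ?_⟩
  · simp only [ProbabilityMeasure.coe_mk]
    rw [Measure.map_map (τE_cont _).measurable hγ, Measure.map_congr (g := γ ∘ sh n),
      ← Measure.map_map hγ (sh_meas n), (h1 n).2]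
    filter_upwards [ha, (h1 n).quasiMeasurePreserving.ae ha] with y a1 a2
    exact Subtype.ext ((congrArg _ a1).trans ((G_sh r n y).symm.trans a2.symm))
  · rw [ProbabilityMeasure.coe_mk, indep_mp ⟨hγ, rfl⟩ ρ₁_cont.measurable ρ₂_cont.measurable]
    have hF : Measurable[MeasurableSpace.comap (L 0) inferInstance] fun y => ρ₁ (G r y) := by
      have hA := comap_measurable (m := inferInstance) (L (α := Prop) 0)
      let _ := MeasurableSpace.comap (L (α := Prop) 0) inferInstance
      refine meas_F fun s => g_meas r (min s 0) fun i hi => ?_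
      have : (i : ℝ) / r < 0 := by linarith [(abs_lt.mp hi).1, min_le_right s 0]
      rw [div_lt_iff₀ hr', zero_mul, Int.cast_lt_zero] at this
      obtain ⟨n, rfl⟩ : ∃ n : ℕ, i = 0 - n := ⟨(-i).toNat, by omega⟩
      exact (measurable_pi_apply n).comp hA
    have hG : Measurable[MeasurableSpace.comap (R (16 * r)) inferInstance] fun y => ρ₂ (G r y) := by
      have hA := comap_measurable (m := inferInstance) (R (α := Prop) (16 * r))
      let _ := MeasurableSpace.comap (R (α := Prop) (16 * r)) inferInstance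
      refine meas_F fun s => g_meas r (max s 18) fun i hi => ?_
      have : 16 < (i : ℝ) / r := by linarith [(abs_lt.mp hi).2, le_max_right s 18]
      rw [lt_div_iff₀ hr'] at this
      have : 16 * r < i := by exact_mod_cast this
      obtain ⟨n, rfl⟩ : ∃ n : ℕ, i = 16 * r + n := ⟨(i - 16 * r).toNat, by omega⟩
      exact (measurable_pi_apply n).comp hA
    exact IndepFun.congr (indep_of_indep_of_le h2 hF.comap_le hG.comap_le)
      (ha.mono fun y e => congrArg ρ₁ e.symm) (ha.mono fun y e => congrArg ρ₂ e.symm)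

theorem limit : ∃ P : ProbabilityMeasure E, (∀ t, (P : Measure E).map (τE t) = P) ∧
    IndepFun (fun f : E => ρ₁ f) (fun f : E => ρ₂ f) (P : Measure E) := by
  choose μ h1 h2 using fun N => (good N).elim fun _ h => pre (by positivity) h
  obtain ⟨P, -, h⟩ := isCompact_univ.ultrafilter_le_nhds ((hyperfilter ℕ).map μ) (by simp)
  replace h : Tendsto μ (hyperfilter ℕ) (𝓝 P) := h
  refine ⟨P, fun t => ?_, ?_⟩
  · have a1 : ∀ (M : ℕ) (n : ℤ), P.map (τE_cont (n / 2 ^ M)).measurable.aemeasurable = P := fun M n => by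
      refine (isClosed_eq (ProbabilityMeasure.continuous_map (τE_cont _)) continuous_id).mem_of_tendsto h
        (((eventually_ge_atTop M).filter_mono Nat.hyperfilter_le_atTop).mono fun N hN => Subtype.ext ?_)
      obtain ⟨j, rfl⟩ := Nat.exists_eq_add_of_le hN
      have := h1 (M + j) (n * 2 ^ j)
      rwa [show ((n * 2 ^ j : ℤ) : ℝ) / ((2 ^ (M + j) : ℤ) : ℝ) = n / 2 ^ M by
        push_cast; rw [pow_add]; field_simp] at this
    have a2 : Continuous fun t => P.map (τE_cont t).measurable.aemeasurable := by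
      refine ProbabilityMeasure.continuous_iff_forall_continuous_integral.mpr fun φ => ?_
      simp only [ProbabilityMeasure.toMeasure_map,
        integral_map (τE_cont _).measurable.aemeasurable φ.continuous.aestronglyMeasurable]
      exact continuous_of_dominated (bound := fun _ => ‖φ‖)
        (fun t => (φ.continuous.comp (τE_cont t)).aestronglyMeasurable)
        (fun t => ae_of_all _ fun f => φ.norm_coe_le_norm _) (integrable_const _)
        (ae_of_all _ fun f => φ.continuous.comp (τE_cont' f))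
    have a3 : Tendsto (fun M : ℕ => (⌊t * 2 ^ M⌋ : ℝ) / 2 ^ M) atTop (𝓝 t) := by
      have := (tendsto_pow_atTop_nhds_zero_of_lt_one (r := (1 / 2 : ℝ)) (by norm_num) (by norm_num)).const_sub t
      rw [sub_zero] at this
      refine tendsto_of_tendsto_of_tendsto_of_le_of_le this tendsto_const_nhds (fun M => ?_) fun M => ?_
      · rw [le_div_iff₀ (by positivity), sub_mul, ← mul_pow]
        simpa using (Int.sub_one_lt_floor (t * 2 ^ M)).le
      · exact (div_le_iff₀ (by positivity)).mpr (Int.floor_le _)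
    exact congrArg Subtype.val ((isClosed_eq a2 continuous_const).mem_of_tendsto a3
      (Eventually.of_forall fun M => a1 M _))
  · rw [indepFun_iff_map_prod_eq_prod_map_map ρ₁_cont.aemeasurable ρ₂_cont.aemeasurable]
    exact congrArg Subtype.val ((isClosed_eq (ProbabilityMeasure.continuous_map (ρ₁_cont.prodMk ρ₂_cont))
      (ProbabilityMeasure.continuous_prod.comp ((ProbabilityMeasure.continuous_map ρ₁_cont).prodMk
        (ProbabilityMeasure.continuous_map ρ₂_cont)))).mem_of_tendsto h (Eventually.of_forall fun N =>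
      Subtype.ext ((indepFun_iff_map_prod_eq_prod_map_map ρ₁_cont.aemeasurable ρ₂_cont.aemeasurable).mp
        (h2 N))))

noncomputable def N (u v : ℝ) (f : F) : ℕ := ({s | f s = 0} ∩ Icc u v).ncard

lemma N_meas (u v : ℝ) : Measurable (N u v) := by
  have key : ∀ k : ℕ, MeasurableSet {f : F | (k : ℕ∞) ≤ ({s | f s = 0} ∩ Icc u v).encard} := fun k => by
    have : {f : F | (k : ℕ∞) ≤ ({s | f s = 0} ∩ Icc u v).encard} = ⋃ m : ℕ, {f : F | ∃ s ∈
        {s : Fin k → ℝ | ∀ i j, i ≠ j → 1 / ((m : ℝ) + 1) ≤ |s i - s j|} ∩ pi univ fun _ => Icc u v,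
          ∀ i, f (s i) = 0} := by
      ext f
      simp only [mem_iUnion, mem_ofPred_eq]
      constructor
      · intro h
        obtain ⟨t, h1, h2⟩ := exists_subset_encard_eq h
        obtain ⟨n, s, h3, rfl⟩ := (finite_of_encard_eq_coe h2).fin_param
        obtain rfl : n = k := by
          simpa [← image_univ, h3.encard_image] using h2
        obtain ⟨m, hm⟩ := (eventually_all.mpr fun i => eventually_all.mpr fun j => eventually_all.mpr
          fun hij : i ≠ j => tendsto_one_div_add_atTop_nhds_zero_nat.eventually_le_const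
            (abs_pos.mpr (sub_ne_zero.mpr (h3.ne hij)))).exists
        exact ⟨m, s, ⟨hm, fun i _ => (h1 ⟨i, rfl⟩).2⟩, fun i => (h1 ⟨i, rfl⟩).1⟩
      · rintro ⟨m, s, ⟨h1, h2⟩, h3⟩
        have : Function.Injective s := fun i j e => by_contra fun hij => by
          have := h1 i j hij
          rw [e, sub_self, abs_zero] at this
          exact absurd this (not_le.mpr (by positivity))
        refine le_trans (by simpa using this.encard_range) (encard_le_encard (s := range s) ?_)
        rintro _ ⟨i, rfl⟩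
        exact ⟨h3 i, h2 i trivial⟩
    rw [this]
    refine MeasurableSet.iUnion fun m => (closed_ex ((isCompact_univ_pi fun _ => isCompact_Icc).inter_left
      ?_) ?_).measurableSet <;> simp only [ofPred_forall]
    · exact isClosed_iInter fun i => isClosed_iInter fun j => isClosed_iInter fun _ =>
        isClosed_le (by fun_prop) (by fun_prop)
    · exact isClosed_iInter fun i => isClosed_eq (by fun_prop) (by fun_prop)
  refine (measurable_of_countable ENat.toNat).comp (ENat.measurable_iff.mpr fun k => ?_)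
  refine ((key k).diff (key (k + 1))).congr ?_
  ext f
  simp only [Set.mem_sdiff, mem_ofPred_eq, mem_preimage, mem_singleton_iff, Nat.cast_succ, not_le,
    ENat.lt_add_one_iff (ENat.natCast_ne_top k), le_antisymm_iff, and_comm]

lemma N_τ (u v t : ℝ) (f : F) : N (u + t) (v + t) f = N u v (τ t f) := by
  rw [N, N, ← ncard_image_of_injective _ (add_right_injective (-t))]
  congr 1
  ext s
  simp [τ, add_comm]

lemma sep {f : F} (h : f ∈ E) {x y : ℝ} (hx : f x = 0) (hy : f y = 0) (hxy : x ≠ y) : 1 ≤ |x - y| := by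
  have := h.2.1 y x
  have := abs_pos.mpr (sub_ne_zero.mpr hxy)
  grind

end Pool.Agent.H.MP_5bb7da_pr
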